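import Pool.Agent.H52.SxMain

/-!
A Choquet simplex with the affine Baire extension property whose set of extreme points is not
Lindelof. The definitions are in `Pool.Agent.H52.SxDefs`.
-/

namespace Pool.Agent.Results.MP_8d13c5_an.NonLindelof

open Pool.Agent.Choquet

/-- There are a Hausdorff locally convex space `E` and a Choquet simplex `X` in `E` such that every
bounded continuous function on `ext X` extends to an affine Baire function on `X` (in fact to an
affine function which is the pointwise limit of a sequence of continuous affine functions), and
`ext X` is not Lindelof. -/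
theorem result : ∃ (E : Type) (_ : AddCommGroup E) (_ : Module ℝ E) (_ : TopologicalSpace E)
    (_ : IsTopologicalAddGroup E) (_ : ContinuousSMul ℝ E) (_ : LocallyConvexSpace ℝ E)
    (_ : T2Space E) (_ : MeasurableSpace E) (_ : BorelSpace E) (X : Set E),
    IsChoquetSimplex X ∧ HasAffineBaireExtension X ∧ HasAffineBaireOneExtension X ∧
      ¬ IsLindelof (X.extremePoints ℝ) := by
  classical
  exact ⟨Pool.Agent.H52.Sx.EE (Pool.Agent.H52.Sx.VV ℝ), inferInstance, inferInstance,
    inferInstance, inferInstance, inferInstance, inferInstance, inferInstance, inferInstance,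
    inferInstance, Pool.Agent.H52.Sx.XX (Pool.Agent.H52.Sx.VV ℝ),
    Pool.Agent.H52.Sx.counterexample⟩

end Pool.Agent.Results.MP_8d13c5_an.NonLindelof
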